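import Mathlib

/-!
# An ordinal partition relation of Erdős and Hajnal

Under GCH, `ω₃ → (ω₂ + ω₁, ω₂ + ω)²`.  Only `2 ^ ℵ₀ = ℵ₁` and `2 ^ ℵ₁ = ℵ₂` are used.

Outline.  `L` is a well-order of type `ω₃`, `p = ℵ₁`, `q = ℵ₂`.  `Deep` is the set of points of
cofinality above `ℵ₁`, `Stat` is stationarity.  A set `X` below `δ` is `Pos` at `δ` when every set
of at most `ℵ₁` points below `δ` sees some `x` in `X` above it with the same colours as `δ`.
`J i` is the ideal of the sets whose part joined to `ε` in colour `i` is never `Pos` at a deep `ε`.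
Assume that no homogeneous set as required exists.

* `step1`: each stationary set `W` of deep points has a point `ε` at which the part of `W` joined
  to `ε` in colour `i` is `Pos`; such a part contains long `i`-homogeneous sequences.
* `step3`: some initial segment of deep points is not the union of a member of `J 0` and a member
  of `J 1`.
* `step4`: above `δ` there is a tree of increasing sequences of length `ω₁`, homogeneous for
  colour `0`, along the branches of which one reads increasing sequences homogeneous for colour `1`.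
* `core`: a point below `δ` is joined in colour `0` to all of one of these sequences, or it follows
  a branch in colour `1`.  There are `ℵ₁` nodes and `ℵ₁ ^ ℵ₀ = ℵ₁` branches, so the points below
  `δ` are covered by a member of `J 0` and a member of `J 1`, against `step3`.
-/

open Set Cardinal Ordinal Function

namespace Pool.Agent.Results.MP_cc6734_lc.OmegaThree

/-- The ordinal partition relation `α → (β, γ)²`.  A colouring of the two-element subsets of `α`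
by `0, 1` is given by its values `c x y` at the pairs `x < y`.  For every colouring there is a set
of order type `β` all of whose pairs have colour `0`, or a set of order type `γ` all of whose
pairs have colour `1`. -/
def Arrow (α β γ : Ordinal.{0}) : Prop :=
  ∀ c : α.ToType → α.ToType → Fin 2,
    (∃ H : Set α.ToType, typeLT H = β ∧ ∀ x ∈ H, ∀ y ∈ H, x < y → c x y = 0) ∨
    (∃ H : Set α.ToType, typeLT H = γ ∧ ∀ x ∈ H, ∀ y ∈ H, x < y → c x y = 1)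

theorem card_iUnion_le {J A : Type} {κ : Cardinal.{0}} (hκ : ℵ₀ ≤ κ) (hJ : #J ≤ κ)
    (f : J → Set A) (hf : ∀ j, #(f j) ≤ κ) : #(⋃ j, f j) ≤ κ := by
  refine mk_iUnion_le_sum_mk.trans ?_
  refine (sum_le_sum _ (fun _ => κ) hf).trans ?_
  rw [sum_const']
  exact (mul_le_mul' hJ le_rfl).trans (mul_eq_self hκ).le

theorem card_union_le {A : Type} {κ : Cardinal.{0}} (hκ : ℵ₀ ≤ κ) (s t : Set A)
    (hs : #s ≤ κ) (ht : #t ≤ κ) : #(s ∪ t : Set A) ≤ κ :=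
  (mk_union_le s t).trans ((add_le_add hs ht).trans (add_eq_self hκ).le)

structure Ctx (L : Type) [LinearOrder L] (p q : Cardinal.{0}) : Prop where
  hp : ℵ₀ ≤ p
  hq : ℵ₀ ≤ q
  hpq : q ^ p ≤ q
  seg : ∀ x : L, #(Iio x) ≤ q
  bdd : ∀ A : Set L, #A ≤ q → ∃ b, ∀ a ∈ A, a < b

section core

variable {L : Type} [LinearOrder L] {p q : Cardinal.{0}}

def Stat (W : Set L) : Prop :=
  ∀ (b : L) (f : L → L), ∃ δ ∈ W, b < δ ∧ ∀ α < δ, f α < δ

def Deep (L : Type) [LinearOrder L] (p : Cardinal.{0}) : Set L :=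
  {δ | ∀ A : Set L, #A ≤ p → (∀ a ∈ A, a < δ) → ∃ b < δ, ∀ a ∈ A, a < b}

def Pos (p : Cardinal.{0}) (c : L → L → Fin 2) (δ : L) (X : Set L) : Prop :=
  ∀ A : Set L, #A ≤ p → (∀ a ∈ A, a < δ) → ∃ x ∈ X, ∀ a ∈ A, a < x ∧ c a x = c a δ

theorem Stat.mono {W V : Set L} (h : Stat W) (hWV : W ⊆ V) : Stat V := by
  intro b f
  obtain ⟨δ, h1, h2⟩ := h b f
  exact ⟨δ, hWV h1, h2⟩

theorem Pos.mono {c : L → L → Fin 2} {δ : L} {W V : Set L} (h : Pos p c δ W) (hWV : W ⊆ V) :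
    Pos p c δ V := by
  intro A h1 h2
  obtain ⟨x, h3, h4⟩ := h A h1 h2
  exact ⟨x, hWV h3, h4⟩

theorem Pos.split (hp : ℵ₀ ≤ p) {c : L → L → Fin 2} {δ : L} {X : Set L} {J : Type}
    (hJ : #J ≤ p) (Y : J → Set L) (hX : X ⊆ ⋃ j, Y j) (h : Pos p c δ X) :
    ∃ j, Pos p c δ (Y j) := by
  by_contra hcon
  push Not at hcon
  have h1 : ∀ j, ∃ A : Set L, #A ≤ p ∧ (∀ a ∈ A, a < δ) ∧
      ∀ x ∈ Y j, ¬ ∀ a ∈ A, a < x ∧ c a x = c a δ := by
    intro j
    have := hcon j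
    unfold Pos at this
    push Not at this
    obtain ⟨A, h1, h2, h3⟩ := this
    refine ⟨A, h1, h2, ?_⟩
    intro x hx h4
    obtain ⟨a, ha, h5⟩ := h3 x hx
    exact h5 (h4 a ha).1 (h4 a ha).2
  choose A hA1 hA2 hA3 using h1
  obtain ⟨x, hx, h2⟩ := h (⋃ j, A j) (card_iUnion_le hp hJ A hA1) (by
    intro a ha
    obtain ⟨j, hj⟩ := mem_iUnion.1 ha
    exact hA2 j a hj)
  obtain ⟨j, hj⟩ := mem_iUnion.1 (hX hx)
  exact hA3 j x hj fun a ha => h2 a (mem_iUnion.2 ⟨j, ha⟩)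

omit [LinearOrder L] in
/-- Recursive construction. -/
theorem build {K : Type} [LinearOrder K] [WellFoundedLT K] {κ : Cardinal.{0}}
    (hK : ∀ k : K, #(Iio k) ≤ κ) (Q : Set L) (P : Set L → L → Prop)
    (h : ∀ A ⊆ Q, #A ≤ κ → ∃ x ∈ Q, P A x) :
    ∃ a : K → L, (∀ k, a k ∈ Q) ∧ ∀ k, P (a '' Iio k) (a k) := by
  classical
  rcases isEmpty_or_nonempty L with hL | hL
  · obtain ⟨x, -⟩ := h ∅ (empty_subset _) (by simp)
    exact (hL.false x).elim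
  have h1 : ∀ A : Set L, ∃ x : L, A ⊆ Q → #A ≤ κ → x ∈ Q ∧ P A x := by
    intro A
    by_cases hA : A ⊆ Q ∧ #A ≤ κ
    · obtain ⟨x, hx⟩ := h A hA.1 hA.2
      exact ⟨x, fun _ _ => hx⟩
    · exact ⟨Classical.arbitrary L, fun h1 h2 => (hA ⟨h1, h2⟩).elim⟩
  choose g hg using h1
  let a : K → L := WellFounded.fix (wellFounded_lt (α := K))
    (fun k rec => g {y | ∃ j, ∃ hj : j < k, y = rec j hj})
  have ha : ∀ k, a k = g (a '' Iio k) := by
    intro k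
    have := WellFounded.fix_eq (wellFounded_lt (α := K))
      (fun k (rec : ∀ j, j < k → L) => g {y | ∃ j, ∃ hj : j < k, y = rec j hj}) k
    refine this.trans ?_
    congr 1
    ext y
    constructor
    · rintro ⟨j, hj, rfl⟩
      exact ⟨j, hj, rfl⟩
    · rintro ⟨j, hj, rfl⟩
      exact ⟨j, hj, rfl⟩
  have hQ : ∀ k, a k ∈ Q := by
    intro k
    induction k using WellFoundedLT.induction with
    | _ k ih =>
      rw [ha k]
      refine (hg _ ?_ (mk_image_le.trans (hK k))).1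
      rintro _ ⟨j, hj, rfl⟩
      exact ih j hj
  refine ⟨a, hQ, fun k => ?_⟩
  conv_rhs => rw [ha k]
  refine (hg _ ?_ (mk_image_le.trans (hK k))).2
  rintro _ ⟨j, hj, rfl⟩
  exact hQ j

theorem Ctx.seg' (C : Ctx L p q) (x : L) : #(Iic x) ≤ q := by
  obtain ⟨b, hb⟩ := C.bdd {x} (by
    rw [mk_singleton]
    exact one_le_aleph0.trans C.hq)
  exact (mk_le_mk_of_subset (fun y hy => lt_of_le_of_lt hy (hb x rfl))).trans (C.seg b)

/-- pressing down -/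
theorem Stat.press (C : Ctx L p q) {W : Set L} (hW : Stat W) (g : L → L)
    (hg : ∀ δ ∈ W, g δ < δ) : ∃ η, Stat {δ ∈ W | g δ = η} := by
  by_contra hcon
  push Not at hcon
  have h1 : ∀ η, ∃ (b : L) (f : L → L), ∀ δ ∈ W, g δ = η → b < δ → ∃ α < δ, δ ≤ f α := by
    intro η
    have := hcon η
    unfold Stat at this
    push Not at this
    obtain ⟨b, f, h⟩ := this
    exact ⟨b, f, fun δ h1 h2 h3 => h δ ⟨h1, h2⟩ h3⟩
  choose b f hbf using h1
  have h2 : ∀ η : L, ∃ z, (∀ γ ≤ η, b γ < z) ∧ ∀ γ ≤ η, ∀ α ≤ η, f γ α < z := by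
    intro η
    obtain ⟨z, hz⟩ := C.bdd ((b '' Iic η) ∪ ⋃ γ : Iic η, f γ '' Iic η) (by
      refine card_union_le C.hq _ _ (mk_image_le.trans (C.seg' η)) ?_
      exact card_iUnion_le C.hq (C.seg' η) _ fun j => mk_image_le.trans (C.seg' η))
    refine ⟨z, fun γ hγ => hz _ (Or.inl ⟨γ, hγ, rfl⟩), fun γ hγ α hα => hz _ (Or.inr ?_)⟩
    exact mem_iUnion.2 ⟨⟨γ, hγ⟩, ⟨α, hα, rfl⟩⟩
  choose F hF1 hF2 using h2
  obtain ⟨δ0, -, -⟩ := hW (Classical.choice ⟨(hW (by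
    exact (C.bdd ∅ (by simp)).choose) id).choose⟩) id
  obtain ⟨δ, hδ, -, h3⟩ := hW δ0 F
  have h4 := h3 _ (hg δ hδ)
  have h5 : b (g δ) < δ := (hF1 (g δ) (g δ) le_rfl).trans h4
  obtain ⟨α, hα, h6⟩ := hbf (g δ) δ hδ rfl h5
  have h7 : f (g δ) α < F (max (g δ) α) := hF2 _ _ (le_max_left _ _) _ (le_max_right _ _)
  have h8 : F (max (g δ) α) < δ := h3 _ (max_lt (hg δ hδ) hα)
  exact absurd (h7.trans h8) (not_lt.2 h6)

theorem Stat.fibre (C : Ctx L p q) {W : Set L} (hW : Stat W) {B : Type} (g : L → B) (Z : Set B)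
    (hZ : #Z ≤ q) (hg : ∀ δ ∈ W, g δ ∈ Z) : ∃ z, Stat {δ ∈ W | g δ = z} := by
  by_contra hcon
  push Not at hcon
  have h1 : ∀ η, ∃ (b : L) (f : L → L), ∀ δ ∈ W, g δ = η → b < δ → ∃ α < δ, δ ≤ f α := by
    intro η
    have := hcon η
    unfold Stat at this
    push Not at this
    obtain ⟨b, f, h⟩ := this
    exact ⟨b, f, fun δ h1 h2 h3 => h δ ⟨h1, h2⟩ h3⟩
  choose b f hbf using h1
  obtain ⟨b0, hb0⟩ := C.bdd (b '' Z) (mk_image_le.trans hZ)
  have h2 : ∀ η : L, ∃ z, ∀ γ ∈ Z, f γ η < z := by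
    intro η
    obtain ⟨z, hz⟩ := C.bdd ((fun γ => f γ η) '' Z) (mk_image_le.trans hZ)
    exact ⟨z, fun γ hγ => hz _ ⟨γ, hγ, rfl⟩⟩
  choose F hF using h2
  obtain ⟨δ, hδ, h4, h3⟩ := hW b0 F
  obtain ⟨α, hα, h6⟩ := hbf (g δ) δ hδ rfl ((hb0 _ ⟨_, hg δ hδ, rfl⟩).trans h4)
  exact absurd ((hF α _ (hg δ hδ)).trans (h3 α hα)) (not_lt.2 h6)

theorem Stat.above {W : Set L} (hW : Stat W) (x : L) :
    Stat {δ ∈ W | x < δ} := by
  intro b f
  obtain ⟨δ, h1, h2, h3⟩ := hW (max b x) f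
  exact ⟨δ, ⟨h1, (le_max_right _ _).trans_lt h2⟩, (le_max_left _ _).trans_lt h2, h3⟩

theorem Stat.or (C : Ctx L p q) {W : Set L} (hW : Stat W) (P : L → Prop) :
    Stat {δ ∈ W | P δ} ∨ Stat {δ ∈ W | ¬ P δ} := by
  classical
  obtain ⟨z, hz⟩ := Stat.fibre C hW (fun δ => (if P δ then (0 : Fin 2) else 1)) Set.univ
    ((mk_set_le _).trans ((lt_aleph0_of_finite (Fin 2)).le.trans C.hq)) (fun _ _ => mem_univ _)
  by_cases h0 : z = 0
  · left
    refine hz.mono ?_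
    rintro δ ⟨h1, h2⟩
    refine ⟨h1, ?_⟩
    by_contra h3
    simp only [if_neg h3] at h2
    rw [h0] at h2
    exact absurd h2 (by decide)
  · right
    refine hz.mono ?_
    rintro δ ⟨h1, h2⟩
    refine ⟨h1, fun h3 => h0 ?_⟩
    simp only [if_pos h3] at h2
    exact h2.symm

/-- the pressing down lemma with colour codes -/
theorem pressing (C : Ctx L p q) (c : L → L → Fin 2) {W : Set L} (hW : Stat W)
    (hWS : W ⊆ Deep L p) (A : L → Set L)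
    (hA : ∀ δ ∈ W, #(A δ) ≤ p ∧ ∀ a ∈ A δ, a < δ) :
    ∃ T ⊆ W, Stat T ∧ ∀ x ∈ T, ∀ y ∈ T, A x = A y ∧ ∀ a ∈ A x, c a x = c a y := by
  classical
  have h1 : ∀ δ, ∃ b, δ ∈ W → b < δ ∧ ∀ a ∈ A δ, a < b := by
    intro δ
    by_cases h : δ ∈ W
    · obtain ⟨b, h1, h2⟩ := hWS h (A δ) (hA δ h).1 (hA δ h).2
      exact ⟨b, fun _ => ⟨h1, h2⟩⟩
    · exact ⟨δ, fun h' => (h h').elim⟩
  choose β hβ using h1
  obtain ⟨η, hη⟩ := hW.press C β fun δ hδ => (hβ δ hδ).1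
  let code : L → Set (L × Fin 2) := fun δ => (fun a => (a, c a δ)) '' A δ
  let s : Set (L × Fin 2) := ⋃ i : Fin 2, (fun a => (a, i)) '' Iio η
  have hs : #s ≤ q := card_iUnion_le C.hq ((lt_aleph0_of_finite (Fin 2)).le.trans C.hq) _
    fun j => mk_image_le.trans (C.seg η)
  have hZ : #{t : Set (L × Fin 2) | t ⊆ s ∧ #t ≤ p} ≤ q := by
    refine (mk_bounded_subset_le s p).trans ?_
    refine le_trans ?_ C.hpq
    exact power_le_power_right (max_le hs C.hq)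
  obtain ⟨z, hz⟩ := hη.fibre C code _ hZ (by
    rintro δ ⟨h1, h2⟩
    refine ⟨?_, mk_image_le.trans (hA δ h1).1⟩
    rintro _ ⟨a, ha, rfl⟩
    refine mem_iUnion.2 ⟨c a δ, a, ?_, rfl⟩
    rw [← h2]
    exact (hβ δ h1).2 a ha)
  refine ⟨_, fun δ h => h.1.1, hz, ?_⟩
  have key : ∀ x ∈ {δ | δ ∈ {δ | δ ∈ W ∧ β δ = η} ∧ code δ = z},
      ∀ y ∈ {δ | δ ∈ {δ | δ ∈ W ∧ β δ = η} ∧ code δ = z}, ∀ a ∈ A x, a ∈ A y ∧ c a x = c a y := by
    rintro x ⟨-, hx⟩ y ⟨-, hy⟩ a ha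
    have : (a, c a x) ∈ code y := by
      rw [hy, ← hx]
      exact ⟨a, ha, rfl⟩
    obtain ⟨a', ha', h3⟩ := this
    simp only [Prod.mk.injEq] at h3
    obtain ⟨rfl, h4⟩ := h3
    exact ⟨ha', h4.symm⟩
  intro x hx y hy
  refine ⟨?_, fun a ha => (key x hx y hy a ha).2⟩
  ext a
  exact ⟨fun h => (key x hx y hy a h).1, fun h => (key y hy x hx a h).1⟩

theorem stat_deep [WellFoundedLT L] (C : Ctx L p q) {K : Type} [LinearOrder K] [WellFoundedLT K]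
    (hK1 : #K ≤ q) (hK3 : ∀ A : Set K, #A ≤ p → ∃ b, ∀ a ∈ A, a < b) : Stat (Deep L p) := by
  intro b f
  obtain ⟨e, -, he⟩ := build (K := K) (κ := q) (fun k => (mk_set_le _).trans hK1) (univ : Set L)
    (fun A x => b < x ∧ ∀ a ∈ A, a < x ∧ ∀ α ≤ a, f α < x) (by
      intro A _ hA
      obtain ⟨x, hx⟩ := C.bdd (({b} ∪ A) ∪ ⋃ a : A, f '' Iic a.1) (by
        refine card_union_le C.hq _ _ (card_union_le C.hq _ _ ?_ hA) ?_
        · rw [mk_singleton]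
          exact one_le_aleph0.trans C.hq
        · exact card_iUnion_le C.hq hA _ fun a => mk_image_le.trans (C.seg' a.1))
      refine ⟨x, mem_univ _, hx b (Or.inl (Or.inl rfl)), fun a ha => ⟨hx a (Or.inl (Or.inr ha)), ?_⟩⟩
      intro α hα
      exact hx _ (Or.inr (mem_iUnion.2 ⟨⟨a, ha⟩, ⟨α, hα, rfl⟩⟩)))
  have he1 : ∀ j k, j < k → e j < e k := fun j k h => ((he k).2 _ ⟨j, h, rfl⟩).1
  have he2 : ∀ j k, j < k → ∀ α ≤ e j, f α < e k := fun j k h => ((he k).2 _ ⟨j, h, rfl⟩).2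
  obtain ⟨z0, hz0⟩ := C.bdd (range e) (mk_range_le.trans hK1)
  obtain ⟨δ, hδ1, hδ2⟩ := (wellFounded_lt (α := L)).has_min {z | ∀ k, e k < z}
    ⟨z0, fun k => hz0 _ ⟨k, rfl⟩⟩
  have h3 : ∀ α < δ, ∃ k, α ≤ e k := by
    intro α hα
    by_contra hcon
    push Not at hcon
    exact hδ2 α hcon hα
  have hlim : ∀ k : K, ∃ k', k < k' := by
    intro k
    obtain ⟨k', hk'⟩ := hK3 {k} (by
      rw [mk_singleton]
      exact one_le_aleph0.trans C.hp)
    exact ⟨k', hk' k rfl⟩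
  obtain ⟨k0, -⟩ := hK3 ∅ (by simp)
  refine ⟨δ, ?_, (he k0).1.trans (hδ1 k0), ?_⟩
  · intro A hA hAδ
    have h4 : ∀ a : A, ∃ k, a.1 ≤ e k := fun a => h3 _ (hAδ a.1 a.2)
    choose g hg using h4
    obtain ⟨k, hk⟩ := hK3 (range g) (mk_range_le.trans hA)
    refine ⟨e k, hδ1 k, fun a ha => ?_⟩
    exact (hg ⟨a, ha⟩).trans_lt (he1 _ _ (hk _ ⟨_, rfl⟩))
  · intro α hα
    obtain ⟨k, hk⟩ := h3 α hα
    obtain ⟨k', hk'⟩ := hlim k
    exact (he2 k k' hk' α hk).trans (hδ1 k')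

/-- `a` enumerates, in increasing order, an `i`-homogeneous set -/
def Hom (c : L → L → Fin 2) (i : Fin 2) {K : Type} [LT K] (a : K → L) : Prop :=
  ∀ j k, j < k → a j < a k ∧ c (a j) (a k) = i

def Pair (c : L → L → Fin 2) (i : Fin 2) (K M : Type) [LT K] [LT M] : Prop :=
  ∃ (a : K → L) (b : M → L), Hom c i a ∧ Hom c i b ∧ ∀ j k, a j < b k ∧ c (a j) (b k) = i

theorem Pos.seq {c : L → L → Fin 2} {i : Fin 2} {ε : L} {P : Set L}
    (h : Pos p c ε {x | x ∈ P ∧ x < ε ∧ c x ε = i}) {K : Type} [LinearOrder K] [WellFoundedLT K]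
    (hK : ∀ k : K, #(Iio k) ≤ p) :
    ∃ a : K → L, Hom c i a ∧ ∀ k, a k ∈ P ∧ a k < ε ∧ c (a k) ε = i := by
  obtain ⟨a, ha1, ha2⟩ := build hK {x | x ∈ P ∧ x < ε ∧ c x ε = i}
    (fun A x => ∀ a ∈ A, a < x ∧ c a x = i) (by
      intro A hA hA2
      obtain ⟨x, hx, h1⟩ := h A hA2 (fun a ha => (hA ha).2.1)
      refine ⟨x, hx, fun a ha => ⟨(h1 a ha).1, ?_⟩⟩
      rw [(h1 a ha).2]
      exact (hA ha).2.2)
  exact ⟨a, fun j k hjk => ha2 k _ ⟨j, hjk, rfl⟩, ha1⟩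

/-- a stationary homogeneous set is too big -/
theorem Stat.pair (C : Ctx L p q) {c : L → L → Fin 2} {i : Fin 2} {W : Set L} (hW : Stat W)
    (hom : ∀ x ∈ W, ∀ y ∈ W, x < y → c x y = i) {K M : Type} [LinearOrder K] [WellFoundedLT K]
    [LinearOrder M] [WellFoundedLT M] (hK : #K ≤ q) (hM : #M ≤ q) : Pair c i K M := by
  have key : ∀ b : L, ∀ N : Type, ∀ (_ : LinearOrder N), ∀ (_ : WellFoundedLT N), #N ≤ q →
      ∃ a : N → L, (∀ k, a k ∈ W ∧ b < a k) ∧ Hom c i a := by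
    intro b N _ _ hN
    obtain ⟨a, ha1, ha2⟩ := build (K := N) (κ := q) (fun k => (mk_set_le _).trans hN)
      {x | x ∈ W ∧ b < x} (fun A x => ∀ a ∈ A, a < x) (by
        intro A hA hA2
        obtain ⟨z, hz⟩ := C.bdd A hA2
        obtain ⟨δ, h1, h2, -⟩ := hW (max b z) id
        exact ⟨δ, ⟨h1, (le_max_left _ _).trans_lt h2⟩, fun a ha =>
          (hz a ha).trans ((le_max_right _ _).trans_lt h2)⟩)
    exact ⟨a, ha1, fun j k hjk => ⟨ha2 k _ ⟨j, hjk, rfl⟩,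
      hom _ (ha1 j).1 _ (ha1 k).1 (ha2 k _ ⟨j, hjk, rfl⟩)⟩⟩
  obtain ⟨b0, -⟩ := C.bdd ∅ (by simp)
  obtain ⟨a, ha1, ha2⟩ := key b0 K inferInstance inferInstance hK
  obtain ⟨z, hz⟩ := C.bdd (range a) (mk_range_le.trans hK)
  obtain ⟨b, hb1, hb2⟩ := key z M inferInstance inferInstance hM
  refine ⟨a, b, ha2, hb2, fun j k => ?_⟩
  have h1 : a j < b k := (hz _ ⟨j, rfl⟩).trans (hb1 k).2
  exact ⟨h1, hom _ (ha1 j).1 _ (hb1 k).1 h1⟩

theorem step1 (C : Ctx L p q) {c : L → L → Fin 2}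
    (hno : ∀ i, ∀ W : Set L, Stat W → ¬ ∀ x ∈ W, ∀ y ∈ W, x < y → c x y = i)
    {W : Set L} (hW : Stat W) (hWS : W ⊆ Deep L p) (i : Fin 2) :
    ∃ ε ∈ W, Pos p c ε {x | x ∈ W ∧ x < ε ∧ c x ε = i} := by
  classical
  by_contra hcon
  push Not at hcon
  have h1 : ∀ δ, ∃ A : Set L, δ ∈ W → #A ≤ p ∧ (∀ a ∈ A, a < δ) ∧
      ∀ x, x ∈ W → x < δ → c x δ = i → ¬ ∀ a ∈ A, a < x ∧ c a x = c a δ := by
    intro δ
    by_cases hδ : δ ∈ W
    · have h2 := hcon δ hδ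
      unfold Pos at h2
      push Not at h2
      obtain ⟨A, h3, h4, h5⟩ := h2
      refine ⟨A, fun _ => ⟨h3, h4, fun x hx1 hx2 hx3 hx4 => ?_⟩⟩
      obtain ⟨a, ha, h6⟩ := h5 x ⟨hx1, hx2, hx3⟩
      exact h6 (hx4 a ha).1 (hx4 a ha).2
    · exact ⟨∅, fun h => (hδ h).elim⟩
  choose A hA using h1
  obtain ⟨T, hTW, hT, hT2⟩ := pressing C c hW hWS A (fun δ hδ => ⟨(hA δ hδ).1, (hA δ hδ).2.1⟩)
  refine hno (1 - i) T hT fun x hx y hy hxy => ?_
  have h3 : c x y ≠ i := by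
    intro h4
    refine (hA y (hTW hy)).2.2 x (hTW hx) hxy h4 fun a ha => ?_
    have h5 := hT2 y hy x hx
    refine ⟨(hA x (hTW hx)).2.1 a (h5.1 ▸ ha), (h5.2 a ha).symm⟩
  have h6 : ∀ i j : Fin 2, j ≠ i → j = 1 - i := by decide
  exact h6 _ _ h3

/-- the ideal of sets all of whose parts are negligible below each deep point -/
def J (p : Cardinal.{0}) (c : L → L → Fin 2) (i : Fin 2) (P : Set L) : Prop :=
  ∀ ε ∈ Deep L p, ¬ Pos p c ε {x | x ∈ P ∧ x < ε ∧ c x ε = i}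

theorem J.mono {c : L → L → Fin 2} {i : Fin 2} {P Q : Set L} (h : J p c i Q) (hPQ : P ⊆ Q) :
    J p c i P := fun ε hε h1 => h ε hε (h1.mono fun _ hx => ⟨hPQ hx.1, hx.2⟩)

theorem J.iUnion (hp : ℵ₀ ≤ p) {c : L → L → Fin 2} {i : Fin 2} {N : Type} (hN : #N ≤ p)
    {Y : N → Set L} (h : ∀ n, J p c i (Y n)) : J p c i (⋃ n, Y n) := by
  intro ε hε h1
  obtain ⟨n, hn⟩ := h1.split hp hN (fun n => {x | x ∈ Y n ∧ x < ε ∧ c x ε = i}) (by
    rintro x ⟨h2, h3⟩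
    obtain ⟨n, hn⟩ := mem_iUnion.1 h2
    exact mem_iUnion.2 ⟨n, hn, h3⟩)
  exact h n ε hε hn

theorem step3 (C : Ctx L p q) {c : L → L → Fin 2} (hS : Stat (Deep L p))
    (h1 : ∀ W : Set L, Stat W → W ⊆ Deep L p → ∀ i,
      ∃ ε ∈ W, Pos p c ε {x | x ∈ W ∧ x < ε ∧ c x ε = i})
    {K M : Type} [LinearOrder K] [WellFoundedLT K] [LinearOrder M] [WellFoundedLT M]
    (hK : ∀ k : K, #(Iio k) ≤ p) (hM : #M ≤ p) (H0 : ¬ Pair c 0 K M) :
    ∃ δ : L, ∀ X0 X1 : Set L, J p c 0 X0 → J p c 1 X1 →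
      ¬ ∀ x ∈ Deep L p, x < δ → x ∈ X0 ∨ x ∈ X1 := by
  classical
  by_contra hcon
  push Not at hcon
  choose X0 X1 hX0 hX1 hcov using hcon
  have hwit : ∀ (i : Fin 2) (X : Set L), J p c i X → ∀ δ ∈ Deep L p, ∃ A : Set L, #A ≤ p ∧
      (∀ a ∈ A, a < δ) ∧ ∀ x ∈ X, x < δ → c x δ = i → ¬ ∀ a ∈ A, a < x ∧ c a x = c a δ := by
    intro i X hX δ hδ
    have h2 := hX δ hδ
    unfold Pos at h2
    push Not at h2
    obtain ⟨A, h3, h4, h5⟩ := h2
    refine ⟨A, h3, h4, fun x hx1 hx2 hx3 hx4 => ?_⟩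
    obtain ⟨a, ha, h6⟩ := h5 x ⟨hx1, hx2, hx3⟩
    exact h6 (hx4 a ha).1 (hx4 a ha).2
  have h2 : ∀ δ, ∃ A : Set L, δ ∈ Deep L p → #A ≤ p ∧ (∀ a ∈ A, a < δ) ∧
      ∀ x ∈ Deep L p, x < δ → (∀ a ∈ A, a < x ∧ c a x = c a δ) →
        (c x δ = 0 → x ∈ X1 δ) ∧ (c x δ = 1 → x ∈ X0 δ) := by
    intro δ
    by_cases hδ : δ ∈ Deep L p
    · obtain ⟨A0, h3, h4, h5⟩ := hwit 0 _ (hX0 δ) δ hδ
      obtain ⟨A1, h6, h7, h8⟩ := hwit 1 _ (hX1 δ) δ hδ
      refine ⟨A0 ∪ A1, fun _ => ⟨card_union_le C.hp _ _ h3 h6, ?_, ?_⟩⟩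
      · rintro a (ha | ha)
        · exact h4 a ha
        · exact h7 a ha
      · intro x hx1 hx2 hx3
        refine ⟨fun h9 => ?_, fun h9 => ?_⟩
        · rcases hcov δ x hx1 hx2 with h10 | h10
          · exact (h5 x h10 hx2 h9 fun a ha => hx3 a (Or.inl ha)).elim
          · exact h10
        · rcases hcov δ x hx1 hx2 with h10 | h10
          · exact h10
          · exact (h8 x h10 hx2 h9 fun a ha => hx3 a (Or.inr ha)).elim
    · exact ⟨∅, fun h => (hδ h).elim⟩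
  choose A hA using h2
  obtain ⟨T, hTS, hT, hT2⟩ := pressing C c hS Subset.rfl A
    (fun δ hδ => ⟨(hA δ hδ).1, (hA δ hδ).2.1⟩)
  have hmatch : ∀ x ∈ T, ∀ y ∈ T, x < y →
      (c x y = 0 → x ∈ X1 y) ∧ (c x y = 1 → x ∈ X0 y) := by
    intro x hx y hy hxy
    refine (hA y (hTS hy)).2.2 x (hTS hx) hxy fun a ha => ?_
    have h5 := hT2 y hy x hx
    exact ⟨(hA x (hTS hx)).2.1 a (h5.1 ▸ ha), (h5.2 a ha).symm⟩
  obtain ⟨ε, hε, hpos⟩ := h1 T hT hTS 0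
  obtain ⟨ε', hε', hpos'⟩ := h1 _ (hT.above ε) (fun x hx => hTS hx.1) 0
  obtain ⟨b, hb1, hb2⟩ := hpos'.seq (K := M) fun k => (mk_set_le _).trans hM
  -- split according to the colours of the pairs with the upper sequence
  obtain ⟨o, ho⟩ := hpos.split (J := Option M) C.hp (by
      rw [mk_option]
      exact (add_le_add hM (one_le_aleph0.trans C.hp)).trans (add_eq_self C.hp).le)
    (fun o => match o with
      | none => {x | (x ∈ T ∧ ∀ k, c x (b k) = 0) ∧ x < ε ∧ c x ε = 0}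
      | some k => {x | (x ∈ T ∧ c x (b k) = 1) ∧ x < ε ∧ c x ε = 0}) (by
      rintro x ⟨hx1, hx2⟩
      by_cases h3 : ∀ k, c x (b k) = 0
      · exact mem_iUnion.2 ⟨none, ⟨hx1, h3⟩, hx2⟩
      · push Not at h3
        obtain ⟨k, hk⟩ := h3
        refine mem_iUnion.2 ⟨some k, ⟨hx1, ?_⟩, hx2⟩
        revert hk
        generalize c x (b k) = j
        revert j
        decide)
  match o, ho with
  | none, ho =>
    obtain ⟨a, ha1, ha2⟩ := Pos.seq (P := {x | x ∈ T ∧ ∀ k, c x (b k) = 0}) ho (K := K) hK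
    exact H0 ⟨a, b, ha1, hb1, fun j k => ⟨(ha2 j).2.1.trans (hb2 k).1.2, (ha2 j).1.2 k⟩⟩
  | some k, ho =>
    refine hX0 (b k) ε (hTS hε) (ho.mono ?_)
    rintro x ⟨⟨hx1, hx2⟩, hx3, hx4⟩
    exact ⟨(hmatch x hx1 (b k) (hb2 k).1.1 (hx3.trans (hb2 k).1.2)).2 hx2, hx3, hx4⟩

def Up (p : Cardinal.{0}) (c : L → L → Fin 2) (δ : L) (F : Set L) : Set L :=
  {y | y ∈ Deep L p ∧ δ < y ∧ ∀ x ∈ F, x < y ∧ c x y = 1}

theorem step4 (C : Ctx L p q) {c : L → L → Fin 2}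
    (hno : ∀ i, ∀ W : Set L, Stat W → ¬ ∀ x ∈ W, ∀ y ∈ W, x < y → c x y = i)
    (h1 : ∀ W : Set L, Stat W → W ⊆ Deep L p → ∀ i,
      ∃ ε ∈ W, Pos p c ε {x | x ∈ W ∧ x < ε ∧ c x ε = i})
    {M : Type} [LinearOrder M] [WellFoundedLT M] (hM : #M ≤ p)
    (δ : L) (F : Set L) (hF : Stat (Up p c δ F)) :
    ∃ b : M → L, Hom c 0 b ∧ ∀ k, b k ∈ Up p c δ F ∧ Stat (Up p c δ (insert (b k) F)) := by
  classical
  have hW : Stat {y ∈ Up p c δ F | Stat (Up p c δ (insert y F))} := by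
    rcases hF.or C (fun y => Stat (Up p c δ (insert y F))) with h | h
    · exact h
    exfalso
    have h2 : ∀ y, ∃ (b : L) (f : L → L), y ∈ Up p c δ F → ¬ Stat (Up p c δ (insert y F)) →
        ∀ z ∈ Up p c δ (insert y F), b < z → ∃ α < z, z ≤ f α := by
      intro y
      by_cases hy : y ∈ Up p c δ F ∧ ¬ Stat (Up p c δ (insert y F))
      · have h3 := hy.2
        unfold Stat at h3
        push Not at h3
        obtain ⟨b, f, h4⟩ := h3
        exact ⟨b, f, fun _ _ => h4⟩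
      · exact ⟨y, id, fun h3 h4 => (hy ⟨h3, h4⟩).elim⟩
    choose b f hbf using h2
    have h3 : ∀ η : L, ∃ z, (∀ γ ≤ η, b γ < z) ∧ ∀ γ ≤ η, ∀ α ≤ η, f γ α < z := by
      intro η
      obtain ⟨z, hz⟩ := C.bdd ((b '' Iic η) ∪ ⋃ γ : Iic η, f γ '' Iic η) (by
        refine card_union_le C.hq _ _ (mk_image_le.trans (C.seg' η)) ?_
        exact card_iUnion_le C.hq (C.seg' η) _ fun j => mk_image_le.trans (C.seg' η))
      refine ⟨z, fun γ hγ => hz _ (Or.inl ⟨γ, hγ, rfl⟩), fun γ hγ α hα => hz _ (Or.inr ?_)⟩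
      exact mem_iUnion.2 ⟨⟨γ, hγ⟩, ⟨α, hα, rfl⟩⟩
    choose G hG1 hG2 using h3
    refine hno 0 {z | (z ∈ Up p c δ F ∧ ¬ Stat (Up p c δ (insert z F))) ∧ ∀ α < z, G α < z} ?_ ?_
    · intro b' f'
      obtain ⟨z, hz1, hz2, hz3⟩ := h b' (fun α => max (f' α) (G α))
      exact ⟨z, ⟨hz1, fun α hα => (le_max_right _ _).trans_lt (hz3 α hα)⟩, hz2,
        fun α hα => (le_max_left _ _).trans_lt (hz3 α hα)⟩
    · rintro y ⟨⟨hy1, hy2⟩, hy3⟩ z ⟨⟨hz1, hz2⟩, hz3⟩ hyz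
      by_contra h4
      have h5 : c y z = 1 := by
        revert h4
        generalize c y z = j
        revert j
        decide
      have h6 : z ∈ Up p c δ (insert y F) := by
        refine ⟨hz1.1, hz1.2.1, ?_⟩
        rintro x (rfl | hx)
        · exact ⟨hyz, h5⟩
        · exact hz1.2.2 x hx
      obtain ⟨α, hα, h7⟩ := hbf y hy1 hy2 z h6 ((hG1 y y le_rfl).trans (hz3 y hyz))
      have h8 : f y α < G (max y α) := hG2 _ _ (le_max_left _ _) _ (le_max_right _ _)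
      exact absurd (h8.trans (hz3 _ (max_lt hyz hα))) (not_lt.2 h7)
  obtain ⟨ε, hε, hpos⟩ := h1 _ hW (fun y hy => hy.1.1) 0
  obtain ⟨b, hb1, hb2⟩ := hpos.seq (K := M) fun k => (mk_set_le _).trans hM
  exact ⟨b, hb1, fun k => (hb2 k).1⟩

theorem core [WellFoundedLT L] (C : Ctx L p q) (c : L → L → Fin 2)
    {K M : Type} [LinearOrder K] [WellFoundedLT K] [LinearOrder M] [WellFoundedLT M]
    (hK1 : #K ≤ q) (hK2 : ∀ k : K, #(Iio k) ≤ p) (hK3 : ∀ A : Set K, #A ≤ p → ∃ b, ∀ a ∈ A, a < b)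
    (hM : #M ≤ p) (hpath : p ^ ℵ₀ ≤ p) (hpq : p ≤ q) : Pair c 0 K M ∨ Pair c 1 K ℕ := by
  classical
  by_contra hcon
  push Not at hcon
  obtain ⟨H0, H1⟩ := hcon
  have hno : ∀ i, ∀ W : Set L, Stat W → ¬ ∀ x ∈ W, ∀ y ∈ W, x < y → c x y = i := by
    intro i W hW h
    have hi : i = 0 ∨ i = 1 := (by decide : ∀ i : Fin 2, i = 0 ∨ i = 1) i
    rcases hi with rfl | rfl
    · exact H0 (hW.pair C h hK1 (hM.trans hpq))
    · exact H1 (hW.pair C h hK1 (mk_nat.le.trans C.hq))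
  have hS : Stat (Deep L p) := stat_deep C hK1 hK3
  have h1 : ∀ W : Set L, Stat W → W ⊆ Deep L p → ∀ i,
      ∃ ε ∈ W, Pos p c ε {x | x ∈ W ∧ x < ε ∧ c x ε = i} :=
    fun W hW hWS i => step1 C hno hW hWS i
  obtain ⟨δ, hδ⟩ := step3 C hS h1 hK2 hM H0
  have h4 : ∀ F : {F : Set L // Stat (Up p c δ F)}, ∃ b : M → L, Hom c 0 b ∧
      ∀ k, b k ∈ Up p c δ F ∧ Stat (Up p c δ (insert (b k) F)) :=
    fun F => step4 C hno h1 hM δ F.1 F.2
  choose b hb1 hb2 using h4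
  have h0 : Stat (Up p c δ ∅) := by
    refine (hS.above δ).mono ?_
    rintro y ⟨h5, h6⟩
    exact ⟨h5, h6, fun x hx => hx.elim⟩
  let F : List M → {F : Set L // Stat (Up p c δ F)} := fun s =>
    List.rec ⟨∅, h0⟩ (fun k _ ih => ⟨insert (b ih k) ih.1, (hb2 ih k).2⟩) s
  have hF : ∀ k s, (F (k :: s)).1 = insert (b (F s) k) (F s).1 := fun k s => rfl
  let P0 : List M → Set L := fun s => {β | β < δ ∧ ∀ k, c β (b (F s) k) = 0}
  have hP0 : ∀ s, J p c 0 (P0 s) := by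
    intro s ε hε h5
    obtain ⟨a, ha1, ha2⟩ := h5.seq (K := K) hK2
    exact H0 ⟨a, b (F s), ha1, hb1 _, fun j k =>
      ⟨(ha2 j).1.1.trans (hb2 (F s) k).1.2.1, (ha2 j).1.2 k⟩⟩
  let P1 : (ℕ → List M × M) → Set L := fun φ => {β | β < δ ∧
    (∀ n, c β (b (F (φ n).1) (φ n).2) = 1) ∧ Hom c 1 (fun n : ℕ => b (F (φ n).1) (φ n).2)}
  obtain ⟨k0, -⟩ := hK3 ∅ (by simp)
  have hP1 : ∀ φ, J p c 1 (P1 φ) := by
    intro φ ε hε h5
    obtain ⟨a, ha1, ha2⟩ := h5.seq (K := K) hK2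
    exact H1 ⟨a, _, ha1, (ha2 k0).1.2.2, fun j k =>
      ⟨(ha2 j).1.1.trans (hb2 _ _).1.2.1, (ha2 j).1.2.1 k⟩⟩
  have hML : #(List M) ≤ p := by
    refine (mk_list_le_max M).trans (max_le C.hp hM)
  have hcard : #(ℕ → List M × M) ≤ p := by
    rw [← power_def, mk_nat]
    refine (power_le_power_right ?_).trans hpath
    rw [mk_prod, Cardinal.lift_id, Cardinal.lift_id]
    exact (mul_le_mul' hML hM).trans (mul_eq_self C.hp).le
  refine hδ _ _ (J.iUnion C.hp hML hP0) (J.iUnion C.hp hcard hP1) ?_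
  intro x hx hxδ
  by_cases h5 : ∃ s, x ∈ P0 s
  · left
    exact mem_iUnion.2 h5
  right
  push Not at h5
  have h6 : ∀ s, ∃ k, c x (b (F s) k) = 1 := by
    intro s
    by_contra h7
    push Not at h7
    refine h5 s ⟨hxδ, fun k => ?_⟩
    have h8 := h7 k
    revert h8
    generalize c x (b (F s) k) = j
    revert j
    decide
  choose κ hκ using h6
  let s : ℕ → List M := fun n => Nat.rec [] (fun _ ih => κ ih :: ih) n
  have hs : ∀ n, s (n + 1) = κ (s n) :: s n := fun n => rfl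
  have hmem : ∀ m n, m < n → b (F (s m)) (κ (s m)) ∈ (F (s n)).1 := by
    intro m n hmn
    induction n with
    | zero => omega
    | succ n ih =>
      rw [hs, hF]
      rcases Nat.lt_succ_iff_lt_or_eq.1 hmn with h | rfl
      · exact Or.inr (ih h)
      · exact Or.inl rfl
  refine mem_iUnion.2 ⟨fun n => (s n, κ (s n)), hxδ, fun n => hκ (s n), ?_⟩
  intro m n hmn
  exact (hb2 (F (s n)) (κ (s n))).1.2.2 _ (hmem m n hmn)

end core

theorem succ_seg (κ : Cardinal.{0}) (x : (Order.succ κ).ord.ToType) : #(Iio x) ≤ κ := by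
  have h := mk_Iio_lt x (by simp)
  rw [mk_ord_toType] at h
  exact Order.lt_succ_iff.1 h

theorem succ_bdd {κ : Cardinal.{0}} (hκ : ℵ₀ ≤ κ) (A : Set (Order.succ κ).ord.ToType)
    (hA : #A ≤ κ) : ∃ b, ∀ a ∈ A, a < b := by
  rw [← not_isCofinal_iff]
  intro h
  have h1 := Order.cof_le h
  rw [cof_toType, (isRegular_succ hκ).cof_ord] at h1
  exact absurd (h1.trans hA) (not_le.2 (Order.lt_succ κ))

theorem Pair.set {L : Type} [LinearOrder L] [WellFoundedLT L] {c : L → L → Fin 2} {i : Fin 2}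
    {K M : Type} [LinearOrder K] [WellFoundedLT K] [LinearOrder M] [WellFoundedLT M]
    (h : Pair c i K M) :
    ∃ H : Set L, typeLT H = typeLT K + typeLT M ∧ ∀ x ∈ H, ∀ y ∈ H, x < y → c x y = i := by
  obtain ⟨a, b, ha, hb, hab⟩ := h
  let f : K ⊕ M → L := Sum.elim a b
  have hf : ∀ x y, Sum.Lex (· < ·) (· < ·) x y → f x < f y ∧ c (f x) (f y) = i := by
    rintro x y hxy
    cases hxy with
    | inl h => exact ha _ _ h
    | inr h => exact hb _ _ h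
    | sep j k => exact hab j k
  let g : K ⊕ M → range f := fun x => ⟨f x, x, rfl⟩
  let e : (Sum.Lex (· < ·) (· < ·) : K ⊕ M → K ⊕ M → Prop) ↪r
      ((· < ·) : range f → range f → Prop) := RelEmbedding.ofMonotone g fun x y h => (hf x y h).1
  have he : Surjective e := by
    rintro ⟨_, x, rfl⟩
    exact ⟨x, rfl⟩
  refine ⟨range f, ?_, ?_⟩
  · have h1 := (RelIso.ofSurjective e he).ordinalType_congr
    rw [type_sum_lex] at h1
    exact h1.symm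
  · rintro _ ⟨x, rfl⟩ _ ⟨y, rfl⟩ hxy
    refine (hf x y ?_).2
    exact e.map_rel_iff.1 hxy

theorem result (gch : ∀ κ : Cardinal.{0}, ℵ₀ ≤ κ → 2 ^ κ = Order.succ κ) :
    Arrow (ω_ 3) (ω_ 2 + ω_ 1) (ω_ 2 + ω) := by
  have e1 : ω_ 1 = (Order.succ ℵ₀).ord := by
    rw [succ_aleph0, ord_aleph]
  have e2 : ω_ 2 = (Order.succ (ℵ_ 1)).ord := by
    rw [succ_aleph, ord_aleph]
    norm_num
  have e3 : ω_ 3 = (Order.succ (ℵ_ 2)).ord := by
    rw [succ_aleph, ord_aleph]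
    norm_num
  rw [e3, e2, e1]
  intro c
  have hpow : ∀ κ : Cardinal.{0}, ℵ₀ ≤ κ → (Order.succ κ) ^ κ ≤ Order.succ κ := by
    intro κ hκ
    rw [← gch κ hκ, ← power_mul, mul_eq_self hκ]
  have s12 : Order.succ (ℵ_ 1) = ℵ_ 2 := by
    rw [succ_aleph]
    norm_num
  have C : Ctx (Order.succ (ℵ_ 2)).ord.ToType (ℵ_ 1) (ℵ_ 2) :=
    { hp := aleph0_le_aleph _
      hq := aleph0_le_aleph _
      hpq := by
        have := hpow (ℵ_ 1) (aleph0_le_aleph _)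
        rwa [s12] at this
      seg := succ_seg _
      bdd := succ_bdd (aleph0_le_aleph _) }
  have key := core C c (K := (Order.succ (ℵ_ 1)).ord.ToType) (M := (Order.succ ℵ₀).ord.ToType)
    (by rw [mk_ord_toType, s12]) (succ_seg _) (succ_bdd (aleph0_le_aleph _))
    (by rw [mk_ord_toType, succ_aleph0])
    (by
      have := hpow ℵ₀ le_rfl
      rwa [succ_aleph0] at this)
    (by
      rw [← s12]
      exact Order.le_succ _)
  rcases key with h | h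
  · left
    obtain ⟨H, h1, h2⟩ := h.set
    refine ⟨H, ?_, h2⟩
    rw [h1, type_toType, type_toType]
  · right
    obtain ⟨H, h1, h2⟩ := h.set
    refine ⟨H, ?_, h2⟩
    rw [h1, type_toType, type_nat_lt]

end Pool.Agent.Results.MP_cc6734_lc.OmegaThree
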